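import Pool.Agent.Helper44x.SF.Ten

/-!
Smooth families over an affine variety: the atlas of a quotient given by the base change to the
charts of a modification.
-/

set_option autoImplicit false
set_option linter.unusedVariables false
set_option linter.unusedSectionVars false

open TensorProduct AlgebraicGeometry CategoryTheory Pool.Agent.W558 Pool.Agent.H920R2

namespace Pool.Agent.Helper44x.SF

section atl

variable {k A B E L : Type} [Field k] [CommRing A] [IsDomain A] [Algebra k A] [CommRing B]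
  [Algebra k B] [Algebra A B] [IsScalarTower k A B] [Field E] [Algebra k E] [Algebra A E]
  [IsScalarTower k A E] [IsFractionRing A E] [Field L] [Algebra k L] [Algebra A L] [Algebra B L]
  [IsScalarTower A B L] [Algebra E L] [IsScalarTower A E L] [IsScalarTower k E L]
  [IsScalarTower k B L]

lemma A_L (a : A) : algebraMap E L (algebraMap A E a) = algebraMap B L (algebraMap A B a) := by
  rw [← IsScalarTower.algebraMap_apply A E L, ← IsScalarTower.algebraMap_apply A B L]

lemma glue {U U' : Subalgebra k E} {ρ : E} (hρ : ρ ∈ U)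
    (h : ∀ x ∈ U', ∃ n : ℕ, ρ ^ n * x ∈ U) {x : L} (hx : x ∈ SU B L U') :
    ∃ n : ℕ, algebraMap E L ρ ^ n * x ∈ SU B L U := by
  have hup : ∀ (x : L) (n m : ℕ), algebraMap E L ρ ^ n * x ∈ SU B L U →
      algebraMap E L ρ ^ (n + m) * x ∈ SU B L U := by
    intro x n m hx
    rw [pow_add, mul_comm (_ ^ n), mul_assoc]
    exact (SU B L U).mul_mem ((SU B L U).pow_mem (e_mem hρ) m) hx
  refine SU_ind (P := fun x => ∃ n : ℕ, algebraMap E L ρ ^ n * x ∈ SU B L U) ?_ ?_ ?_ hx
  · exact ⟨0, by rw [mul_zero]; exact (SU B L U).zero_mem⟩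
  · intro u hu b
    obtain ⟨n, hn⟩ := h u hu
    refine ⟨n, ?_⟩
    rw [← mul_assoc, ← map_pow, ← map_mul]
    exact (SU B L U).mul_mem (e_mem hn) (b_mem b)
  · rintro x y ⟨n, hn⟩ ⟨m, hm⟩
    refine ⟨n + m, ?_⟩
    rw [mul_add]
    refine (SU B L U).add_mem (hup _ n m hn) ?_
    rw [add_comm n m]
    exact hup _ m n hm

lemma denom {U : Subalgebra k E} {ρ : E} (hρ : ∃ a : A, ρ = algebraMap A E a)
    (h : ∀ x ∈ U, ∃ (n : ℕ) (a : A), ρ ^ n * x = algebraMap A E a) {x : L}
    (hx : x ∈ SU B L U) : ∃ (n : ℕ) (b : B), algebraMap E L ρ ^ n * x = algebraMap B L b := by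
  obtain ⟨a0, ha0⟩ := hρ
  have hup : ∀ (x : L) (n m : ℕ) (b : B), algebraMap E L ρ ^ n * x = algebraMap B L b →
      ∃ b' : B, algebraMap E L ρ ^ (n + m) * x = algebraMap B L b' := by
    intro x n m b hb
    refine ⟨algebraMap A B a0 ^ m * b, ?_⟩
    rw [map_mul, ← hb, map_pow, ← A_L (E := E), ← ha0, pow_add]
    ring
  refine SU_ind (P := fun x => ∃ (n : ℕ) (b : B), algebraMap E L ρ ^ n * x = algebraMap B L b)
    ?_ ?_ ?_ hx
  · exact ⟨0, 0, by rw [mul_zero, map_zero]⟩
  · intro u hu b
    obtain ⟨n, a, hn⟩ := h u hu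
    refine ⟨n, algebraMap A B a * b, ?_⟩
    rw [← mul_assoc, ← map_pow, ← map_mul, hn, map_mul, A_L (E := E) (B := B) (L := L)]
  · rintro x y ⟨n, b, hn⟩ ⟨m, b', hm⟩
    obtain ⟨c, hc⟩ := hup _ n m b hn
    obtain ⟨c', hc'⟩ := hup _ m n b' hm
    refine ⟨n + m, c + c', ?_⟩
    rw [mul_add, hc, map_add]
    rw [add_comm n m, hc']

variable (K0 : Subalgebra k L) (hEK : ∀ e : E, algebraMap E L e ∈ K0) (R : Subalgebra k B)
  (hR : ∀ b, b ∈ R ↔ algebraMap B L b ∈ K0) (hint : ∀ b : B, IsIntegral R b)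

include hEK hR hint in
/-- The atlas of the quotient. -/
theorem atl_fam {T : Type} (U : T → Subalgebra k E) (H : T → E)
    (hA : Atl (IsScalarTower.toAlgHom k A E) U H)
    (hsm : ∀ t, Algebra.Smooth k (SU B L (U t) ⊓ K0 : Subalgebra k L)) :
    Atl ((IsScalarTower.toAlgHom k B L).comp R.val) (fun t => SU B L (U t) ⊓ K0)
      (fun t => algebraMap E L (H t)) where
  sm := hsm
  aa := fun t a => ⟨b_mem _, (hR _).1 a.2⟩
  H0 := fun t h => hA.H0 t ((algebraMap E L).injective (h.trans (map_zero _).symm))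
  hA := by
    intro t
    obtain ⟨a, ha⟩ := hA.hA t
    have h1 : algebraMap B L (algebraMap A B a) = algebraMap E L (H t) := by
      rw [ha]
      exact (A_L a).symm
    exact ⟨⟨algebraMap A B a, (hR _).2 (by rw [h1]; exact hEK _)⟩, h1.symm⟩
  rt := fun t t' => by
    rw [← map_div₀]
    exact ⟨e_mem (hA.rt t t'), hEK _⟩
  gl := by
    intro t t' x hx
    obtain ⟨n, hn⟩ := glue (hA.rt t t') (hA.gl t t') hx.1
    refine ⟨n, ?_⟩
    rw [← map_div₀]
    exact ⟨hn, K0.mul_mem (K0.pow_mem (hEK _) n) hx.2⟩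
  dn := by
    intro t x hx
    obtain ⟨n, b, hb⟩ := denom (B := B) (hA.hA t) (hA.dn t) hx.1
    refine ⟨n, ⟨b, (hR _).2 ?_⟩, hb⟩
    rw [← hb]
    exact K0.mul_mem (K0.pow_mem (hEK _) n) hx.2
  cv := by
    intro W hW
    have hB : ∀ b : B, algebraMap B L b ∈ W := by
      intro b
      let φ : R →+* W :=
        { toFun := fun x => ⟨algebraMap B L x, hW x⟩
          map_one' := Subtype.ext (map_one _)
          map_mul' := fun _ _ => Subtype.ext (map_mul _ _ _)
          map_zero' := Subtype.ext (map_zero _)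
          map_add' := fun _ _ => Subtype.ext (map_add _ _ _) }
      have h1 : IsIntegral W (algebraMap B L b) :=
        (hint b).map_of_comp_eq φ (algebraMap B L) rfl
      obtain ⟨y, hy⟩ := IsIntegrallyClosed.isIntegral_iff.1 h1
      rw [← hy]
      exact y.2
    obtain ⟨t, ht⟩ := hA.cv (W.comap (algebraMap E L)) (fun a => by
      rw [ValuationSubring.mem_comap]
      have h1 := hB (algebraMap A B a)
      rw [← A_L (E := E)] at h1
      exact h1)
    refine ⟨t, ?_⟩
    rintro x ⟨hx, -⟩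
    refine SU_ind (P := fun x => x ∈ W) W.zero_mem ?_ (fun x y => W.add_mem x y) hx
    intro u hu b
    exact W.mul_mem _ _ (ValuationSubring.mem_comap.1 (ht u hu)) (hB b)

end atl

section ft

variable {k A B : Type} [Field k] [CommRing A] [Algebra k A] [CommRing B] [IsDomain B]
  [Algebra k B] [Algebra A B] [IsScalarTower k A B]

/-- Rings over which a finitely generated algebra is integral are finitely generated. -/
theorem ft_of_integral [Algebra.FiniteType k B] (R : Subalgebra k B)
    (hint : ∀ b : B, IsIntegral R b) : Algebra.FiniteType k R := by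
  have h1 : Algebra.IsIntegral R B := ⟨hint⟩
  have h3 : Algebra.FiniteType R B := Algebra.FiniteType.of_restrictScalars_finiteType k _ _
  have h4 : Module.Finite R B := Algebra.IsIntegral.finite
  have h5 : (⊤ : Subalgebra k B).FG := (inferInstance : Algebra.FiniteType k B).1
  exact ⟨fg_of_fg_of_fg k _ B h5 h4.1 Subtype.val_injective⟩

end ft

end Pool.Agent.Helper44x.SF
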