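import Pool.Agent.Helper44x.SF.Fol

/-!
Modules of derivations: extension to the fraction field, and their ranks.
-/

set_option autoImplicit false
set_option linter.unusedVariables false
set_option linter.unusedSectionVars false

open TensorProduct AlgebraicGeometry CategoryTheory Pool.Agent.W558 Pool.Agent.H920R2
open Pool.Agent.Helper44x.FR Pool.Agent.Helper44x.DM

namespace Pool.Agent.Helper44x.SF

section ext

variable {A B L : Type} [CommRing A] [CommRing B] [IsDomain B] [Algebra A B] [Field L]
  [Algebra A L] [Algebra B L] [IsScalarTower A B L] [IsFractionRing B L]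

/-- The extension of a derivation to the fraction field. -/
noncomputable def ext (D : Derivation A B B) : Derivation A L L :=
  letI : Algebra.FormallyEtale B L :=
    Algebra.FormallyEtale.of_isLocalization (nonZeroDivisors B)
  ((LinearMap.liftBaseChange L ((Algebra.linearMap B L).comp D.liftKaehlerDifferential)).comp
    (KaehlerDifferential.tensorKaehlerEquivOfFormallyEtale A B L).symm.toLinearMap).compDer
    (KaehlerDifferential.D A L)

lemma ext_algebraMap (D : Derivation A B B) (b : B) :
    ext (L := L) D (algebraMap B L b) = algebraMap B L (D b) := by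
  have : Algebra.FormallyEtale B L :=
    Algebra.FormallyEtale.of_isLocalization (nonZeroDivisors B)
  change (LinearMap.liftBaseChange L ((Algebra.linearMap B L).comp D.liftKaehlerDifferential))
    ((KaehlerDifferential.tensorKaehlerEquivOfFormallyEtale A B L).symm
      (KaehlerDifferential.D A L (algebraMap B L b))) = _
  rw [KaehlerDifferential.tensorKaehlerEquivOfFormallyEtale_symm_D_algebraMap,
    LinearMap.liftBaseChange_tmul, one_smul, LinearMap.comp_apply,
    Derivation.liftKaehlerDifferential_comp_D, Algebra.linearMap_apply]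

end ext

section uniq

variable {k B L : Type} [Field k] [CommRing B] [IsDomain B] [Algebra k B] [Field L]
  [Algebra k L] [Algebra B L] [IsScalarTower k B L] [IsFractionRing B L]

lemma der_unique (X Y : Derivation k L L) (h : ∀ b : B, X (algebraMap B L b) =
    Y (algebraMap B L b)) : X = Y := by
  apply Derivation.ext
  intro x
  obtain ⟨a, b, hb, rfl⟩ := IsFractionRing.div_surjective B x
  have hb0 : algebraMap B L b ≠ 0 := fun h =>
    nonZeroDivisors.ne_zero hb (IsFractionRing.injective B L (h.trans (map_zero _).symm))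
  have h1 : ∀ Z : Derivation k L L, algebraMap B L b * Z (algebraMap B L a / algebraMap B L b) =
      Z (algebraMap B L a) - (algebraMap B L a / algebraMap B L b) * Z (algebraMap B L b) := by
    intro Z
    have h2 : Z (algebraMap B L a) =
        Z (algebraMap B L b * (algebraMap B L a / algebraMap B L b)) := by
      rw [mul_div_cancel₀ _ hb0]
    rw [h2, Derivation.leibniz, smul_eq_mul, smul_eq_mul]
    ring
  have h2 := h1 X
  rw [h, h, ← h1 Y] at h2
  exact mul_left_cancel₀ hb0 h2

end uniq

section mod

variable {k A B L : Type} [Field k] [CommRing A] [Algebra k A] [CommRing B] [IsDomain B]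
  [Algebra k B] [Algebra A B] [IsScalarTower k A B] [Field L] [Algebra k L]
  [Algebra A L] [Algebra B L] [IsScalarTower A B L] [IsScalarTower k B L] [IsScalarTower k A L]
  [IsFractionRing B L]

/-- A `B`-module of derivations is a foliation if it is generically closed under brackets and
`p`-th powers. -/
structure IsFol (p : ℕ) (M : Submodule B (Derivation A B B)) : Prop where
  bracket : ∀ X ∈ M, ∀ Y ∈ M, ∃ b : B, b ≠ 0 ∧ b • ⁅X, Y⁆ ∈ M
  power : ∀ X ∈ M, ∃ b : B, b ≠ 0 ∧ ∃ Y ∈ M, ∀ x, b * X^[p] x = Y x

/-- The ideal of the minors. -/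
def minors (M : Submodule B (Derivation A B B)) (r : ℕ) : Ideal B :=
  Ideal.span {y | ∃ (X : Fin r → Derivation A B B) (b : Fin r → B), (∀ i, X i ∈ M) ∧
    y = (Matrix.of fun i j => X i (b j)).det}

/-- The extension to the fraction field, over the field `k`. -/
noncomputable def ek (k L : Type) [Field k] [Algebra k A] [Algebra k B] [IsScalarTower k A B]
    [Field L] [Algebra k L] [Algebra A L] [Algebra B L] [IsScalarTower A B L]
    [IsScalarTower k B L] [IsScalarTower k A L] [IsFractionRing B L] (X : Derivation A B B) :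
    Derivation k L L := (ext (L := L) X).restrictScalars k

lemma ek_algebraMap (X : Derivation A B B) (b : B) :
    ek k L X (algebraMap B L b) = algebraMap B L (X b) := ext_algebraMap X b

lemma ek_A (X : Derivation A B B) (a : A) : ek k L X (algebraMap A L a) = 0 :=
  Derivation.map_algebraMap (ext (L := L) X) a

lemma ek_smul (b : B) (X : Derivation A B B) : ek k L (b • X) = algebraMap B L b • ek k L X := by
  apply der_unique (B := B)
  intro c
  rw [ek_algebraMap, Derivation.smul_apply, Derivation.smul_apply, ek_algebraMap, smul_eq_mul,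
    smul_eq_mul, map_mul]

lemma ek_add (X Y : Derivation A B B) : ek k L (X + Y) = ek k L X + ek k L Y := by
  apply der_unique (B := B)
  intro c
  rw [ek_algebraMap, Derivation.add_apply, Derivation.add_apply, ek_algebraMap, ek_algebraMap,
    map_add]

lemma ek_zero : ek (A := A) (B := B) k L 0 = 0 := by
  apply der_unique (B := B)
  intro c
  rw [ek_algebraMap, Derivation.zero_apply, Derivation.zero_apply, map_zero]

lemma ek_lie (X Y : Derivation A B B) : ek k L ⁅X, Y⁆ = ⁅ek k L X, ek k L Y⁆ := by
  apply der_unique (B := B)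
  intro c
  rw [ek_algebraMap, Derivation.commutator_apply, Derivation.commutator_apply, ek_algebraMap,
    ek_algebraMap, ek_algebraMap, ek_algebraMap, map_sub]

variable {M : Submodule B (Derivation A B B)}

/-- Elements of the span have a multiple in the module. -/
lemma span_denom {Y : Derivation k L L}
    (hY : Y ∈ Submodule.span L (Set.range fun X : M => ek k L (X : Derivation A B B))) :
    ∃ c : B, c ≠ 0 ∧ ∃ X ∈ M, algebraMap B L c • Y = ek k L X := by
  induction hY using Submodule.span_induction with
  | mem Y h =>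
    obtain ⟨X, rfl⟩ := h
    exact ⟨1, one_ne_zero, X, X.2, by rw [map_one, one_smul]⟩
  | zero => exact ⟨1, one_ne_zero, 0, M.zero_mem, by rw [smul_zero, ek_zero]⟩
  | add Y Y' _ _ h h' =>
    obtain ⟨c, hc, X, hX, h1⟩ := h
    obtain ⟨c', hc', X', hX', h2⟩ := h'
    refine ⟨c * c', mul_ne_zero hc hc', c' • X + c • X',
      M.add_mem (M.smul_mem _ hX) (M.smul_mem _ hX'), ?_⟩
    rw [ek_add, ek_smul, ek_smul, ← h1, ← h2, smul_add, map_mul, mul_smul, mul_smul,
      smul_comm (algebraMap B L c) (algebraMap B L c') Y]
  | smul l Y _ h =>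
    obtain ⟨c, hc, X, hX, h1⟩ := h
    obtain ⟨a, b, hb, rfl⟩ := IsFractionRing.div_surjective B l
    have hb0 : algebraMap B L b ≠ 0 := fun h =>
      nonZeroDivisors.ne_zero hb (IsFractionRing.injective B L (h.trans (map_zero _).symm))
    refine ⟨b * c, mul_ne_zero (nonZeroDivisors.ne_zero hb) hc, a • X, M.smul_mem _ hX, ?_⟩
    rw [ek_smul, ← h1, smul_smul, smul_smul]
    congr 1
    rw [map_mul]
    field_simp

variable {p : ℕ}

lemma span_lie (hM : IsFol p M) {Y Z : Derivation k L L}
    (hY : Y ∈ Submodule.span L (Set.range fun X : M => ek k L (X : Derivation A B B)))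
    (hZ : Z ∈ Submodule.span L (Set.range fun X : M => ek k L (X : Derivation A B B))) :
    ⁅Y, Z⁆ ∈ Submodule.span L (Set.range fun X : M => ek k L (X : Derivation A B B)) := by
  set N := Submodule.span L (Set.range fun X : M => ek k L (X : Derivation A B B)) with hN
  obtain ⟨c, hc, X, hX, h1⟩ := span_denom hY
  obtain ⟨c', hc', X', hX', h2⟩ := span_denom hZ
  obtain ⟨b, hb, h3⟩ := hM.bracket X hX X' hX'
  have hne : ∀ b : B, b ≠ 0 → algebraMap B L b ≠ 0 := fun b hb h =>
    hb (IsFractionRing.injective B L (h.trans (map_zero _).symm))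
  have h4 : algebraMap B L b • ⁅ek k L X, ek k L X'⁆ ∈ N := by
    rw [← ek_lie, ← ek_smul]
    exact Submodule.subset_span ⟨⟨_, h3⟩, rfl⟩
  have h5 : ⁅ek k L X, ek k L X'⁆ ∈ N := by
    have := N.smul_mem (algebraMap B L b)⁻¹ h4
    rwa [smul_smul, inv_mul_cancel₀ (hne b hb), one_smul] at this
  -- the bracket of multiples
  have h6 : ⁅algebraMap B L c • Y, algebraMap B L c' • Z⁆ =
      (algebraMap B L c * algebraMap B L c') • ⁅Y, Z⁆ +
      ((algebraMap B L c * Y (algebraMap B L c')) • Z -
        (algebraMap B L c' * Z (algebraMap B L c)) • Y) := by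
    apply Derivation.ext
    intro x
    rw [Derivation.commutator_apply, Derivation.add_apply, Derivation.sub_apply,
      Derivation.smul_apply, Derivation.smul_apply, Derivation.smul_apply, Derivation.smul_apply,
      Derivation.smul_apply, Derivation.smul_apply, Derivation.smul_apply,
      Derivation.commutator_apply]
    simp only [smul_eq_mul, Derivation.leibniz]
    ring
  rw [← h1, ← h2, h6] at h5
  have h7 : (algebraMap B L c * algebraMap B L c') • ⁅Y, Z⁆ ∈ N := by
    have h8 : ((algebraMap B L c * Y (algebraMap B L c')) • Z -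
        (algebraMap B L c' * Z (algebraMap B L c)) • Y) ∈ N :=
      N.sub_mem (N.smul_mem _ hZ) (N.smul_mem _ hY)
    have h9 := N.sub_mem h5 h8
    rwa [add_sub_cancel_right] at h9
  have h8 := N.smul_mem (algebraMap B L c * algebraMap B L c')⁻¹ h7
  rwa [smul_smul, inv_mul_cancel₀ (mul_ne_zero (hne c hc) (hne c' hc')), one_smul] at h8

lemma iter_smul {X : Derivation k L L} {s : L} (hs : X s = 0) (n : ℕ) (x : L) :
    (s • X)^[n] x = s ^ n * X^[n] x := by
  have hsn : ∀ n : ℕ, X (s ^ n) = 0 := fun n => by
    rw [Derivation.leibniz_pow, hs, smul_zero, smul_zero]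
  induction n with
  | zero => simp
  | succ n ih =>
    rw [Function.iterate_succ_apply', ih, Function.iterate_succ_apply', Derivation.smul_apply,
      Derivation.leibniz, hsn, smul_zero, add_zero, smul_eq_mul, smul_eq_mul, pow_succ]
    ring

lemma iter_const {X : Derivation k L L} {s : L} (hs : X s = 0) (n : ℕ) (x : L) :
    X^[n] (s * x) = s * X^[n] x := by
  induction n with
  | zero => rfl
  | succ n ih =>
    rw [Function.iterate_succ_apply', ih, Function.iterate_succ_apply',
      Derivation.leibniz, hs, smul_zero, add_zero, smul_eq_mul]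

lemma iter_ek (X : Derivation A B B) (n : ℕ) (b : B) :
    (ek k L X)^[n] (algebraMap B L b) = algebraMap B L (X^[n] b) := by
  induction n with
  | zero => rfl
  | succ n ih =>
    rw [Function.iterate_succ_apply', ih, Function.iterate_succ_apply', ek_algebraMap]

lemma span_pow (hp : p.Prime) (hpk : (p : k) = 0) (hM : IsFol p M) {Y : Derivation k L L}
    (hY : Y ∈ Submodule.span L (Set.range fun X : M => ek k L (X : Derivation A B B))) :
    ∃ Z ∈ Submodule.span L (Set.range fun X : M => ek k L (X : Derivation A B B)),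
      ∀ x, Y^[p] x = Z x := by
  have hpL : (p : L) = 0 := by rw [← map_natCast (algebraMap k L), hpk, map_zero]
  have hne : ∀ b : B, b ≠ 0 → algebraMap B L b ≠ 0 := fun b hb h =>
    hb (IsFractionRing.injective B L (h.trans (map_zero _).symm))
  have hpow : ∀ (X : Derivation k L L) (x : L), X (x ^ p) = 0 := fun X x => by
    rw [Derivation.leibniz_pow, nsmul_eq_mul, hpL, zero_mul]
  obtain ⟨c, hc, X, hX, h1⟩ := span_denom hY
  obtain ⟨b, hb, Z, hZ, h3⟩ := hM.power (c ^ (p - 1) • X) (M.smul_mem _ hX)
  -- the `p`-th power on the field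
  have h4 : ∀ x : L, algebraMap B L b * (ek k L (c ^ (p - 1) • X))^[p] x = ek k L Z x := by
    intro x
    obtain ⟨u, v, hv, rfl⟩ := IsFractionRing.div_surjective B x
    have hv0 := hne v (nonZeroDivisors.ne_zero hv)
    have h5 : algebraMap B L u / algebraMap B L v =
        ((algebraMap B L v)⁻¹) ^ p * algebraMap B L (u * v ^ (p - 1)) := by
      rw [map_mul, map_pow, inv_pow, eq_inv_mul_iff_mul_eq₀ (pow_ne_zero _ hv0)]
      rw [mul_comm (_ ^ p), ← mul_pow_sub_one hp.ne_zero]
      field_simp
    rw [h5, iter_const (hpow _ _), iter_ek, Derivation.leibniz, hpow, smul_zero, add_zero,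
      ek_algebraMap, ← h3, smul_eq_mul, map_mul]
    ring
  have h6 : Y = ((algebraMap B L c)⁻¹) ^ p • ek k L (c ^ (p - 1) • X) := by
    rw [ek_smul, ← h1, smul_smul, smul_smul]
    have h7 : (algebraMap B L c)⁻¹ ^ p * (algebraMap B L (c ^ (p - 1)) * algebraMap B L c) = 1 := by
      rw [map_pow, ← pow_succ, Nat.sub_add_cancel hp.one_lt.le, ← mul_pow,
        inv_mul_cancel₀ (hne c hc), one_pow]
    rw [← mul_assoc] at h7
    rw [h7, one_smul]
  refine ⟨(((algebraMap B L c)⁻¹ ^ p) ^ p * (algebraMap B L b)⁻¹) • ek k L Z,
    Submodule.smul_mem _ _ (Submodule.subset_span ⟨⟨Z, hZ⟩, rfl⟩), ?_⟩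
  intro x
  rw [h6, iter_smul (hpow _ _), Derivation.smul_apply, ← h4, smul_eq_mul]
  have := hne b hb
  field_simp

/-- The rank: a derivation of the module is a combination of `r` derivations with a nonzero
minor. -/
lemma mem_span_of_minor {r : ℕ} (hr : minors M (r + 1) = ⊥) (X : Fin r → Derivation A B B)
    (hX : ∀ i, X i ∈ M) (b : Fin r → B)
    (hdet : (Matrix.of fun i j => ek k L (X i) (algebraMap B L (b j))).det ≠ 0)
    (Y : Derivation A B B) (hY : Y ∈ M) :
    ek k L Y ∈ Submodule.span L (Set.range fun i => ek k L (X i)) := by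
  classical
  set N : Matrix (Fin r) (Fin r) L := Matrix.of fun i j => ek k L (X i) (algebraMap B L (b j))
    with hN
  have hNu : IsUnit N.det := isUnit_iff_ne_zero.2 hdet
  set c : Fin r → L := Matrix.vecMul (fun j => ek k L Y (algebraMap B L (b j))) N⁻¹ with hc
  have key : ek k L Y = ∑ i, c i • ek k L (X i) := by
    apply der_unique (B := B)
    intro y
    have h1 : (Matrix.of fun (i j : Fin (r + 1)) =>
        (Fin.cons Y X : Fin (r + 1) → Derivation A B B) i
        ((Fin.cons y b : Fin (r + 1) → B) j)).det = 0 := by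
      have h2 : (Matrix.of fun (i j : Fin (r + 1)) =>
        (Fin.cons Y X : Fin (r + 1) → Derivation A B B) i
        ((Fin.cons y b : Fin (r + 1) → B) j)).det ∈ minors M (r + 1) := by
        refine Ideal.subset_span ⟨_, _, ?_, rfl⟩
        intro i
        refine Fin.cases ?_ (fun i => ?_) i
        · exact hY
        · exact hX i
      rwa [hr, Ideal.mem_bot] at h2
    have h2 : (Matrix.of fun (i j : Fin (r + 1)) =>
        ek k L ((Fin.cons Y X : Fin (r + 1) → Derivation A B B) i)
        (algebraMap B L ((Fin.cons y b : Fin (r + 1) → B) j))).det = 0 := by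
      have h3 := congrArg (algebraMap B L) h1
      rw [RingHom.map_det, map_zero] at h3
      rw [← h3]
      congr 1
      ext i j
      exact ek_algebraMap (k := k) (L := L) ((Fin.cons Y X : Fin (r + 1) → Derivation A B B) i) _
    obtain ⟨v, hv0, hv⟩ := Matrix.exists_vecMul_eq_zero_iff.2 h2
    -- the relation
    have h3 : ∀ j : Fin (r + 1), v 0 * ek k L Y (algebraMap B L ((Fin.cons y b :
        Fin (r + 1) → B) j)) + ∑ i : Fin r, v i.succ * ek k L (X i)
        (algebraMap B L ((Fin.cons y b : Fin (r + 1) → B) j)) = 0 := by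
      intro j
      have h4 := congrFun hv j
      rw [Matrix.vecMul, dotProduct, Fin.sum_univ_succ] at h4
      exact h4
    have h4 : ∀ j : Fin r, v 0 * ek k L Y (algebraMap B L (b j)) +
        ∑ i : Fin r, v i.succ * ek k L (X i) (algebraMap B L (b j)) = 0 := fun j => by
      have := h3 j.succ
      simpa only [Fin.cons_succ] using this
    have h5 : v 0 * ek k L Y (algebraMap B L y) +
        ∑ i : Fin r, v i.succ * ek k L (X i) (algebraMap B L y) = 0 := by
      have := h3 0
      simpa only [Fin.cons_zero] using this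
    have hv0' : v 0 ≠ 0 := by
      intro h0
      apply hv0
      have h6 : Matrix.vecMul (fun i : Fin r => v i.succ) N = 0 := by
        funext j
        have := h4 j
        rw [h0, zero_mul, zero_add] at this
        exact this
      have h7 : (fun i : Fin r => v i.succ) = 0 := Matrix.eq_zero_of_vecMul_eq_zero hdet h6
      funext i
      refine Fin.cases h0 (fun i => ?_) i
      exact congrFun h7 i
    have h6 : ∀ i, c i = -(v 0)⁻¹ * v i.succ := by
      have h7 : Matrix.vecMul (fun i => -(v 0)⁻¹ * v i.succ) N =
          fun j => ek k L Y (algebraMap B L (b j)) := by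
        funext j
        have h8 := h4 j
        change ∑ i, (-(v 0)⁻¹ * v i.succ) * N i j = _
        simp_rw [mul_assoc]
        rw [← Finset.mul_sum]
        change -(v 0)⁻¹ * ∑ i : Fin r, v i.succ * ek k L (X i) (algebraMap B L (b j)) = _
        rw [eq_neg_of_add_eq_zero_right h8]
        field_simp
      have h8 : c = fun i => -(v 0)⁻¹ * v i.succ := by
        rw [hc, ← h7, Matrix.vecMul_vecMul, Matrix.mul_nonsing_inv _ hNu, Matrix.vecMul_one]
      intro i
      rw [h8]
    rw [der_sum]
    simp_rw [Derivation.smul_apply, smul_eq_mul, h6, mul_assoc]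
    rw [← Finset.mul_sum, eq_neg_of_add_eq_zero_right h5]
    field_simp
  rw [key]
  exact Submodule.sum_mem _ fun i _ => Submodule.smul_mem _ _ (Submodule.subset_span ⟨i, rfl⟩)

/-- The span of `r` derivations with a nonzero minor is closed. -/
theorem closed_of_minor (hp : p.Prime) (hpk : (p : k) = 0) (hM : IsFol p M) {r : ℕ}
    (hr : minors M (r + 1) = ⊥) (X : Fin r → M) (b : Fin r → B)
    (hdet : mn (fun i => ek k L (X i : Derivation A B B)) (fun j => algebraMap B L (b j)) ≠ 0) :
    ClosedSpan p (fun i => ek k L (X i : Derivation A B B)) ∧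
      ∀ x, (∀ i, ek k L (X i : Derivation A B B) x = 0) →
        ∀ Y : M, ek k L (Y : Derivation A B B) x = 0 := by
  have h1 := mem_span_of_minor (k := k) (L := L) hr (fun i => (X i : Derivation A B B))
    (fun i => (X i).2) b hdet
  have h2 : Submodule.span L (Set.range fun i => ek k L (X i : Derivation A B B)) =
      Submodule.span L (Set.range fun X : M => ek k L (X : Derivation A B B)) := by
    apply le_antisymm
    · rw [Submodule.span_le]
      rintro _ ⟨i, rfl⟩
      exact Submodule.subset_span ⟨X i, rfl⟩
    · rw [Submodule.span_le]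
      rintro _ ⟨Y, rfl⟩
      exact h1 Y Y.2
  refine ⟨⟨?_, ?_⟩, ?_⟩
  · intro Y hY Z hZ
    rw [h2] at hY hZ ⊢
    exact span_lie hM hY hZ
  · intro Y hY
    rw [h2] at hY ⊢
    exact span_pow hp hpk hM hY
  · intro x hx Y
    obtain ⟨c, hc⟩ := (Submodule.mem_span_range_iff_exists_fun L).1 (h1 Y Y.2)
    rw [← hc, der_sum]
    refine Finset.sum_eq_zero fun i _ => ?_
    rw [Derivation.smul_apply, hx, smul_zero]

end mod

end Pool.Agent.Helper44x.SF
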