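import Pool.Agent.Helper44x.SF.Loc

/-!
Foliations on smooth families over an affine variety whose degeneracy ideal comes from the base.
-/

set_option autoImplicit false
set_option linter.unusedVariables false
set_option linter.unusedSectionVars false

open TensorProduct AlgebraicGeometry CategoryTheory Pool.Agent.W558 Pool.Agent.H920R2
open Pool.Agent.Helper44x.FR Pool.Agent.Helper44x.DM

namespace Pool.Agent.Helper44x.SF

section cst

variable {k L : Type} [Field k] [Field L] [Algebra k L] {r : ℕ} {ι : Type}

/-- The common kernel of derivations. -/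
def cst (D : ι → Derivation k L L) : Subalgebra k L where
  carrier := {x | ∀ i, D i x = 0}
  mul_mem' := fun {a b} ha hb i => by
    rw [Derivation.leibniz, ha i, hb i, smul_zero, smul_zero, add_zero]
  add_mem' := fun {a b} ha hb i => by rw [map_add, ha i, hb i, add_zero]
  algebraMap_mem' := fun c i => Derivation.map_algebraMap _ _

lemma mem_cst {D : ι → Derivation k L L} {x : L} : x ∈ cst D ↔ ∀ i, D i x = 0 := Iff.rfl

lemma pow_mem_cst (D : ι → Derivation k L L) {p : ℕ} (hpk : (p : k) = 0) (x : L) :
    x ^ p ∈ cst D := by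
  intro i
  rw [Derivation.leibniz_pow, nsmul_eq_mul]
  have h1 : ((p : ℕ) : L) = 0 := by rw [← map_natCast (algebraMap k L), hpk, map_zero]
  rw [h1, zero_mul]

/-- Cramer's rule for adapted bases. -/
lemma adE_cramer (D : Fin r → Derivation k L L) (β : Fin r → L)
    (hdet : (Matrix.of fun i j => D i (β j)).det ≠ 0) (i : Fin r) (x : L) :
    adE D β i x = (Matrix.of fun m j => D m (Function.update β i x j)).det /
      (Matrix.of fun i j => D i (β j)).det := by
  rw [eq_div_iff hdet, adE_apply]
  set M : Matrix (Fin r) (Fin r) L := Matrix.of fun i j => D i (β j) with hM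
  have h1 : (Matrix.of fun m j => D m (Function.update β i x j)) =
      M.updateCol i (fun m => D m x) := by
    ext m j
    by_cases hj : j = i
    · subst hj
      rw [Matrix.updateCol_self]
      change D m (Function.update β j x j) = _
      rw [Function.update_self]
    · rw [Matrix.updateCol_ne hj]
      change D m (Function.update β i x j) = _
      rw [Function.update_of_ne hj]
      rfl
  rw [h1, ← Matrix.cramer_apply, Matrix.cramer_eq_adjugate_mulVec]
  have h2 : M.adjugate = M.det • M⁻¹ := by
    rw [Matrix.inv_def, smul_smul, Ring.mul_inverse_cancel _ (isUnit_iff_ne_zero.2 hdet), one_smul]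
  rw [h2, Matrix.smul_mulVec, Pi.smul_apply, smul_eq_mul, mul_comm]
  congr 1

lemma kers_adE (D : Fin r → Derivation k L L) (β : Fin r → L)
    (hdet : (Matrix.of fun i j => D i (β j)).det ≠ 0) (R : Subalgebra k L) :
    kers R (fun i => adE D β i) r = R ⊓ cst D := by
  classical
  ext x
  rw [mem_kers, Algebra.mem_inf, mem_cst]
  refine and_congr_right fun _ => ?_
  constructor
  · intro h i
    have h2 : Matrix.mulVec (Matrix.of fun i j => D i (β j))⁻¹ (fun m => D m x) = 0 := by
      funext m
      have h3 := h m m.2
      rw [adE_apply] at h3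
      exact h3
    have h4 := congrArg (fun v => Matrix.mulVec (Matrix.of fun i j => D i (β j)) v) h2
    change Matrix.mulVec _ (Matrix.mulVec _ _) = Matrix.mulVec _ 0 at h4
    rw [Matrix.mulVec_mulVec, Matrix.mul_nonsing_inv _ (isUnit_iff_ne_zero.2 hdet),
      Matrix.one_mulVec, Matrix.mulVec_zero] at h4
    exact congrFun h4 i
  · intro h i _
    rw [adE_apply]
    exact Finset.sum_eq_zero fun m _ => by rw [h m, mul_zero]

end cst

section chart

variable {k A B E L : Type} [Field k] [CommRing A] [IsDomain A] [Algebra k A] [CommRing B]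
  [Algebra k B] [Algebra A B] [IsScalarTower k A B] [Field E] [Algebra k E] [Algebra A E]
  [IsScalarTower k A E] [IsFractionRing A E] [Field L] [Algebra k L] [Algebra A L] [Algebra B L]
  [IsScalarTower A B L] [Algebra E L] [IsScalarTower A E L] [IsScalarTower k E L]
  [IsScalarTower k B L] [Algebra.Smooth A B] (hB : Function.Injective (algebraMap B L))
  {U : Subalgebra k E} (hU : ∀ a : A, algebraMap A E a ∈ U) [Algebra.Smooth k U] {r : ℕ}
  {ι : Type} (D : ι → B → B) (D' : ι → Derivation k L L)
  (hD : ∀ i b, D' i (algebraMap B L b) = algebraMap B L (D i b))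
  (hDE : ∀ i (e : E), D' i (algebraMap E L e) = 0)

/-- The determinants of the foliation. -/
def mn (D' : Fin r → Derivation k L L) (β : Fin r → L) : L := (Matrix.of fun i j => D' i (β j)).det

include hD hDE in
lemma D'_mem (i : ι) {x : L} (hx : x ∈ SU B L U) : D' i x ∈ SU B L U := by
  refine SU_ind (P := fun x => D' i x ∈ SU B L U) ?_ ?_ ?_ hx
  · rw [map_zero]; exact (SU B L U).zero_mem
  · intro u hu b
    rw [Derivation.leibniz, hDE, smul_zero, add_zero, hD, smul_eq_mul]
    exact (SU B L U).mul_mem (e_mem hu) (b_mem _)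
  · intro x y hx hy
    rw [map_add]
    exact (SU B L U).add_mem hx hy

lemma mn_add (D' : Fin r → Derivation k L L) (β : Fin r → L) (i : Fin r) (x y : L) :
    mn D' (Function.update β i (x + y)) = mn D' (Function.update β i x) +
      mn D' (Function.update β i y) := by
  have h1 : ∀ x, (Matrix.of fun m j => D' m (Function.update β i x j)) =
      (Matrix.of fun i j => D' i (β j)).updateCol i (fun m => D' m x) := by
    intro x
    ext m j
    by_cases hj : j = i
    · subst hj
      rw [Matrix.updateCol_self]
      change D' m (Function.update β j x j) = _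
      rw [Function.update_self]
    · rw [Matrix.updateCol_ne hj]
      change D' m (Function.update β i x j) = _
      rw [Function.update_of_ne hj]
      rfl
  unfold mn
  rw [h1, h1, h1, ← Matrix.det_updateCol_add]
  congr 2
  funext m
  rw [map_add]
  rfl

lemma mn_smul (D' : Fin r → Derivation k L L) (hDE : ∀ i (e : E), D' i (algebraMap E L e) = 0)
    (β : Fin r → L) (i : Fin r) (e : E) (y : L) :
    mn D' (Function.update β i (algebraMap E L e * y)) =
      algebraMap E L e * mn D' (Function.update β i y) := by
  have h1 : ∀ x, (Matrix.of fun m j => D' m (Function.update β i x j)) =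
      (Matrix.of fun i j => D' i (β j)).updateCol i (fun m => D' m x) := by
    intro x
    ext m j
    by_cases hj : j = i
    · subst hj
      rw [Matrix.updateCol_self]
      change D' m (Function.update β j x j) = _
      rw [Function.update_self]
    · rw [Matrix.updateCol_ne hj]
      change D' m (Function.update β i x j) = _
      rw [Function.update_of_ne hj]
      rfl
  unfold mn
  rw [h1, h1, ← Matrix.det_updateCol_smul]
  congr 2
  funext m
  rw [Derivation.leibniz, hDE, smul_zero, add_zero]
  rfl

variable (d : L) (hd : d ≠ 0) (h1 : ∀ (a : Fin r → ι) (b : Fin r → B),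
    mn (fun i => D' (a i)) (fun j => algebraMap B L (b j)) / d ∈ SU B L U)
  (h2 : ∀ Q : Ideal (SU B L U), Q.IsPrime → ∃ (a : Fin r → ι) (b : Fin r → B),
    (⟨_, h1 a b⟩ : SU B L U) ∉ Q)
  {p : ℕ} (hp : p.Prime) (hpk : (p : k) = 0)
  (hcl : ∀ (a : Fin r → ι) (b : Fin r → B),
    mn (fun i => D' (a i)) (fun j => algebraMap B L (b j)) ≠ 0 →
    ClosedSpan p (fun i => D' (a i)) ∧ ∀ x, (∀ i, D' (a i) x = 0) → ∀ j, D' j x = 0)

include hDE h1 in
/-- Values of the determinant when one argument is in the chart. -/
lemma mn_mem (a : Fin r → ι) (b : Fin r → B) (i : Fin r) {x : L} (hx : x ∈ SU B L U) :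
    mn (fun i => D' (a i)) (Function.update (fun j => algebraMap B L (b j)) i x) / d ∈
      SU B L U := by
  refine SU_ind (P := fun x => mn (fun i => D' (a i))
    (Function.update (fun j => algebraMap B L (b j)) i x) / d ∈ SU B L U) ?_ ?_ ?_ hx
  · have h3 := mn_smul (E := E) (fun i => D' (a i)) (fun i => hDE (a i))
      (fun j => algebraMap B L (b j)) i 0 0
    rw [map_zero, zero_mul, zero_mul] at h3
    rw [h3, zero_div]
    exact (SU B L U).zero_mem
  · intro u hu c
    rw [mn_smul (E := E) (fun i => D' (a i)) (fun i => hDE (a i)), mul_div_assoc]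
    refine (SU B L U).mul_mem (e_mem hu) ?_
    have h3 : Function.update (fun j => algebraMap B L (b j)) i (algebraMap B L c) =
        fun j => algebraMap B L (Function.update b i c j) := by
      funext j
      by_cases hj : j = i
      · subst hj
        rw [Function.update_self, Function.update_self]
      · rw [Function.update_of_ne hj, Function.update_of_ne hj]
    rw [h3]
    exact h1 _ _
  · intro x y hx hy
    rw [mn_add, add_div]
    exact (SU B L U).add_mem hx hy

include hB hU hD hDE hd h1 h2 hp hpk hcl in
/-- The constants of the foliation on the chart are smooth. -/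
theorem smooth_fol : Algebra.Smooth k (SU B L U ⊓ cst D' : Subalgebra k L) := by
  classical
  have hT := smooth_SU hB hU
  set T := SU B L U with hTdef
  have hTp : ∀ x ∈ T, x ^ p ∈ T ⊓ cst D' := fun x hx => ⟨T.pow_mem hx p, pow_mem_cst D' hpk x⟩
  have hint : ∀ x ∈ T, IsIntegral (T ⊓ cst D' : Subalgebra k L) x := by
    intro x hx
    refine ⟨Polynomial.X ^ p - Polynomial.C ⟨x ^ p, hTp x hx⟩,
      Polynomial.monic_X_pow_sub_C _ hp.ne_zero, ?_⟩
    rw [Polynomial.eval₂_sub, Polynomial.eval₂_pow, Polynomial.eval₂_X, Polynomial.eval₂_C]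
    exact sub_self _
  have hft : Algebra.FiniteType k (T ⊓ cst D' : Subalgebra k L) := ft_sub inf_le_left hint
  apply smooth_of_cover
  intro P hP
  -- a prime above
  let _ : Algebra (T ⊓ cst D' : Subalgebra k L) T :=
    (Subalgebra.inclusion (inf_le_left : T ⊓ cst D' ≤ T)).toRingHom.toAlgebra
  have t' : IsScalarTower (T ⊓ cst D' : Subalgebra k L) T L :=
    IsScalarTower.of_algebraMap_eq fun c => rfl
  have hint' : Algebra.IsIntegral (T ⊓ cst D' : Subalgebra k L) T := ⟨fun x =>
    (isIntegral_algHom_iff (IsScalarTower.toAlgHom (T ⊓ cst D' : Subalgebra k L) T L)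
      Subtype.val_injective).1 (hint x x.2)⟩
  have hinj : Function.Injective (algebraMap (T ⊓ cst D' : Subalgebra k L) T) :=
    Subalgebra.inclusion_injective _
  obtain ⟨Q, hQ, hQP⟩ := Ideal.exists_ideal_over_prime_of_isIntegral_of_isDomain (S := T) P (by
    rw [(RingHom.injective_iff_ker_eq_bot _).1 hinj]
    exact bot_le)
  obtain ⟨a, b, hb⟩ := h2 Q hQ
  set β : Fin r → L := fun j => algebraMap B L (b j) with hβ
  set F : Fin r → Derivation k L L := fun i => D' (a i) with hF
  set u : L := mn F β / d with hu
  have huT : u ∈ T := h1 a b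
  have hu0 : u ≠ 0 := by
    intro h
    apply hb
    have : (⟨_, h1 a b⟩ : T) = 0 := Subtype.ext h
    rw [this]
    exact Q.zero_mem
  have hdet : (Matrix.of fun i j => F i (β j)).det ≠ 0 := by
    intro h
    apply hu0
    rw [hu, mn, h, zero_div]
  obtain ⟨hclF, hker⟩ := hcl a b hdet
  have hcst : cst D' = cst F := by
    ext x
    exact ⟨fun h i => h (a i), fun h => hker x h⟩
  refine ⟨u ^ p, hTp u huT, ?_, ?_⟩
  · intro h
    rw [← hQP, Ideal.mem_comap] at h
    have h3 : (⟨u, huT⟩ : T) ^ p ∈ Q := h
    exact hb (hQ.mem_of_pow_mem _ h3)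
  · have hup0 : u ^ p ≠ 0 := pow_ne_zero _ hu0
    let R' := locF T (u ^ p) (hTp u huT).1
    have hR' : Algebra.Smooth k R' := smooth_locF hup0
    have huinv : u⁻¹ ∈ R' := by
      refine ⟨1, ?_⟩
      rw [pow_one, ← Nat.sub_add_cancel hp.one_lt.le, pow_succ, mul_assoc, mul_inv_cancel₀ hu0,
        mul_one]
      exact T.pow_mem huT _
    have hconst : ∀ i, F i (u ^ p) = 0 := fun i => (hTp u huT).2 (a i)
    have hconstn : ∀ (i : Fin r) (n : ℕ), adE F β i ((u ^ p) ^ n) = 0 := by
      intro i n
      rw [adE_apply]
      refine Finset.sum_eq_zero fun m _ => ?_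
      rw [Derivation.leibniz_pow, hconst, smul_zero, smul_zero, mul_zero]
    have hET : ∀ i, ∀ x ∈ T, adE F β i x ∈ R' := by
      intro i x hx
      rw [adE_cramer F β hdet]
      have h3 : (Matrix.of fun m j => F m (Function.update β i x j)).det /
          (Matrix.of fun i j => F i (β j)).det = (mn F (Function.update β i x) / d) * u⁻¹ := by
        rw [hu, inv_div]
        unfold mn
        field_simp
      rw [h3]
      exact R'.mul_mem (le_locF (mn_mem D' hDE d h1 a b i hx)) huinv
    have hRE : ∀ i, ∀ x ∈ R', adE F β i x ∈ R' := by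
      rintro i x ⟨n, hn⟩
      have h3 := hET i _ hn
      rw [Derivation.leibniz, hconstn, smul_zero, add_zero, smul_eq_mul] at h3
      obtain ⟨m, hm⟩ := h3
      refine ⟨m + n, ?_⟩
      rw [pow_add, mul_assoc]
      exact hm
    have hsmk := smooth_kers hp hpk R' (fun i => adE F β i)
      (fun i x => adE_pow hp.two_le F hclF β hdet i x)
      (fun i j x => adE_comm F hclF β hdet i j x) hRE β (fun j => le_locF (b_mem (b j)))
      (fun i j => adE_coord F β hdet i j) hR' r le_rfl
    rw [kers_adE F β hdet, ← hcst] at hsmk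
    have heq : locF (T ⊓ cst D') (u ^ p) (hTp u huT) = R' ⊓ cst D' := by
      ext x
      rw [Algebra.mem_inf, mem_locF]
      constructor
      · rintro ⟨n, hn⟩
        refine ⟨⟨n, hn.1⟩, fun i => ?_⟩
        have h3 := hn.2 i
        have h4 : D' i ((u ^ p) ^ n) = 0 := by
          rw [Derivation.leibniz_pow, (hTp u huT).2 i, smul_zero, smul_zero]
        rw [Derivation.leibniz, h4, smul_zero, add_zero, smul_eq_mul] at h3
        exact (mul_eq_zero.1 h3).resolve_left (pow_ne_zero _ hup0)
      · rintro ⟨⟨n, hn⟩, hx⟩
        exact ⟨n, hn, (cst D').mul_mem ((cst D').pow_mem (hTp u huT).2 n) hx⟩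
    rw [heq]
    exact hsmk

end chart

end Pool.Agent.Helper44x.SF
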