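import Pool.Agent.Helper44x.SF.Atlas
import Pool.Agent.Helper44x.FR.Shift

/-!
Localizations of subalgebras of a field, and smoothness.
-/

set_option autoImplicit false
set_option linter.unusedVariables false
set_option linter.unusedSectionVars false

namespace Pool.Agent.Helper44x.SF

section loc

variable {k L : Type} [Field k] [Field L] [Algebra k L]

/-- The localization of a subalgebra of a field. -/
def locF (S : Subalgebra k L) (s : L) (hs : s ∈ S) : Subalgebra k L where
  carrier := {x | ∃ n : ℕ, s ^ n * x ∈ S}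
  mul_mem' := by
    rintro a b ⟨n, hn⟩ ⟨m, hm⟩
    refine ⟨n + m, ?_⟩
    have : s ^ (n + m) * (a * b) = (s ^ n * a) * (s ^ m * b) := by ring
    rw [this]
    exact S.mul_mem hn hm
  add_mem' := by
    rintro a b ⟨n, hn⟩ ⟨m, hm⟩
    refine ⟨n + m, ?_⟩
    have : s ^ (n + m) * (a + b) = s ^ m * (s ^ n * a) + s ^ n * (s ^ m * b) := by ring
    rw [this]
    exact S.add_mem (S.mul_mem (S.pow_mem hs m) hn) (S.mul_mem (S.pow_mem hs n) hm)
  algebraMap_mem' := fun c => ⟨0, by rw [pow_zero, one_mul]; exact S.algebraMap_mem c⟩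

variable {S : Subalgebra k L} {s : L} {hs : s ∈ S}

lemma mem_locF {x : L} : x ∈ locF S s hs ↔ ∃ n : ℕ, s ^ n * x ∈ S := Iff.rfl

lemma le_locF : S ≤ locF S s hs := fun x hx => ⟨0, by rw [pow_zero, one_mul]; exact hx⟩

lemma inv_mem_locF (h0 : s ≠ 0) : s⁻¹ ∈ locF S s hs :=
  ⟨1, by rw [pow_one, mul_inv_cancel₀ h0]; exact S.one_mem⟩

/-- The structure of an algebra on the localization. -/
def algLoc (S : Subalgebra k L) (s : L) (hs : s ∈ S) : Algebra S (locF S s hs) :=
  (Subalgebra.inclusion (le_locF (S := S) (s := s) (hs := hs))).toRingHom.toAlgebra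

theorem isLoc (h0 : s ≠ 0) :
    @IsLocalization.Away S _ (⟨s, hs⟩ : S) (locF S s hs) _ (algLoc S s hs) := by
  let _ := algLoc S s hs
  have hmap : ∀ x : S, ((algebraMap S (locF S s hs) x : locF S s hs) : L) = x := fun x => rfl
  refine (isLocalization_iff (M := Submonoid.powers (⟨s, hs⟩ : S))
    (S := locF S s hs)).2 ⟨?_, ?_, ?_⟩
  · rintro ⟨_, n, rfl⟩
    have h1 : IsUnit (algebraMap S (locF S s hs) ⟨s, hs⟩) := by
      refine IsUnit.of_mul_eq_one (⟨s⁻¹, inv_mem_locF h0⟩ : locF S s hs) (Subtype.ext ?_)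
      change s * s⁻¹ = 1
      exact mul_inv_cancel₀ h0
    change IsUnit (algebraMap S (locF S s hs) (⟨s, hs⟩ ^ n))
    rw [map_pow]
    exact h1.pow n
  · rintro ⟨x, n, hn⟩
    refine ⟨(⟨s ^ n * x, hn⟩, ⟨⟨s, hs⟩ ^ n, n, rfl⟩), Subtype.ext ?_⟩
    change x * ((⟨s, hs⟩ ^ n : S) : L) = s ^ n * x
    rw [SubmonoidClass.coe_pow, mul_comm]
  · intro x y hxy
    have h1 : (x : L) = y := congrArg (fun z : locF S s hs => (z : L)) hxy
    exact ⟨1, by rw [Subtype.ext h1]⟩

/-- Localizations of smooth algebras are smooth. -/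
theorem smooth_locF (h0 : s ≠ 0) [Algebra.Smooth k S] : Algebra.Smooth k (locF S s hs) := by
  let _ := algLoc S s hs
  have h1 := isLoc (S := S) (hs := hs) h0
  have h2 : Algebra.Smooth S (locF S s hs) := Algebra.Smooth.of_isLocalization_Away ⟨s, hs⟩
  have t : IsScalarTower k S (locF S s hs) := IsScalarTower.of_algebraMap_eq fun c => rfl
  exact Algebra.Smooth.comp k S (locF S s hs)

/-- Smoothness is local. -/
theorem smooth_of_cover (S : Subalgebra k L) [Algebra.FiniteType k S]
    (h : ∀ P : Ideal S, P.IsPrime → ∃ (s : L) (hs : s ∈ S), (⟨s, hs⟩ : S) ∉ P ∧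
      Algebra.Smooth k (locF S s hs)) : Algebra.Smooth k S := by
  have hfp : Algebra.FinitePresentation k S := Algebra.FinitePresentation.of_finiteType.1
    inferInstance
  refine ⟨?_, hfp⟩
  rw [← Algebra.smoothLocus_eq_univ_iff, Set.eq_univ_iff_forall]
  intro P
  obtain ⟨s, hs, hsP, hsm⟩ := h P.asIdeal P.isPrime
  have h0 : s ≠ 0 := by
    rintro rfl
    exact hsP (P.asIdeal.zero_mem)
  have h1 : Algebra.Smooth k (Localization.Away (⟨s, hs⟩ : S)) := by
    let _ := algLoc S s hs
    have h2 := isLoc (S := S) (hs := hs) h0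
    have t : IsScalarTower k S (locF S s hs) := IsScalarTower.of_algebraMap_eq fun c => rfl
    let e : Localization.Away (⟨s, hs⟩ : S) ≃ₐ[S] locF S s hs :=
      IsLocalization.algEquiv (Submonoid.powers (⟨s, hs⟩ : S)) _ _
    exact Algebra.Smooth.of_equiv (e.symm.restrictScalars k)
  exact Algebra.basicOpen_subset_smoothLocus_iff_smooth.2 h1 hsP

end loc

section ft

variable {k L : Type} [Field k] [Field L] [Algebra k L]

/-- Rings over which a finitely generated algebra is integral are finitely generated. -/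
theorem ft_sub {S T : Subalgebra k L} (hST : S ≤ T) [Algebra.FiniteType k T]
    (hint : ∀ x ∈ T, IsIntegral S x) : Algebra.FiniteType k S := by
  let _ : Algebra S T := (Subalgebra.inclusion hST).toRingHom.toAlgebra
  have t : IsScalarTower k S T := IsScalarTower.of_algebraMap_eq fun c => rfl
  have t' : IsScalarTower S T L := IsScalarTower.of_algebraMap_eq fun c => rfl
  have h1 : Algebra.IsIntegral S T := ⟨fun x => by
    have h2 := hint x x.2
    exact (isIntegral_algHom_iff (IsScalarTower.toAlgHom S T L) Subtype.val_injective).1 h2⟩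
  have h3 : Algebra.FiniteType S T := Algebra.FiniteType.of_restrictScalars_finiteType k _ _
  have h4 : Module.Finite S T := Algebra.IsIntegral.finite
  have h5 : (⊤ : Subalgebra k T).FG := (inferInstance : Algebra.FiniteType k T).1
  exact ⟨fg_of_fg_of_fg k _ T h5 h4.1 (Subalgebra.inclusion_injective hST)⟩

end ft

end Pool.Agent.Helper44x.SF
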