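import Pool.Agent.Helper44x.SF.Ext

/-!
Foliations on smooth families over an affine variety whose degeneracy ideal comes from the base:
the main theorem.
-/

set_option autoImplicit false
set_option linter.unusedVariables false
set_option linter.unusedSectionVars false

open TensorProduct AlgebraicGeometry CategoryTheory Pool.Agent.W558 Pool.Agent.H920R2
open Pool.Agent.Helper44x.FR Pool.Agent.Helper44x.DM

namespace Pool.Agent.Helper44x.SF

lemma injective_of_flat {A B : Type} [CommRing A] [IsDomain A] [CommRing B] [IsDomain B]
    [Algebra A B] [Module.Flat A B] : Function.Injective (algebraMap A B) := by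
  rw [injective_iff_map_eq_zero]
  intro a ha
  by_contra h0
  have h1 : Function.Injective (LinearMap.lsmul A A a) := by
    intro x y hxy
    exact mul_left_cancel₀ h0 hxy
  have h2 := Module.Flat.rTensor_preserves_injective_linearMap (M := B) _ h1
  have h3 : (LinearMap.lsmul A A a).rTensor B ((1 : A) ⊗ₜ[A] (1 : B)) = 0 := by
    rw [LinearMap.rTensor_tmul, LinearMap.lsmul_apply, smul_eq_mul, mul_one]
    have h4 : a ⊗ₜ[A] (1 : B) = (1 : A) ⊗ₜ[A] (a • (1 : B)) := by
      rw [TensorProduct.tmul_smul, TensorProduct.smul_tmul', smul_eq_mul, mul_one]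
    rw [h4, Algebra.smul_def, ha, zero_mul, TensorProduct.tmul_zero]
  have h4 : (1 : A) ⊗ₜ[A] (1 : B) = 0 := h2 (h3.trans (map_zero _).symm)
  have h5 := congrArg (TensorProduct.lid A B) h4
  rw [TensorProduct.lid_tmul, one_smul, map_zero] at h5
  exact one_ne_zero h5

section main

variable {k A B : Type} [Field k] [CommRing A] [IsDomain A] [Algebra k A]
  [Algebra.FiniteType k A] [CommRing B] [IsDomain B] [Algebra k B] [Algebra A B]
  [IsScalarTower k A B] [Algebra.Smooth A B]

/-- Resolution of quotients by foliations on smooth families. -/
theorem main_fol {p : ℕ} (hp : p.Prime) (hpk : (p : k) = 0)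
    (M : Submodule B (Derivation A B B)) (hM : IsFol p M) {r : ℕ} (hr : minors M (r + 1) = ⊥)
    (I : Ideal A) (hMI : minors M r = I.map (algebraMap A B)) (hX : HasPR k A I)
    (R : Subalgebra k B) (hR : ∀ b, b ∈ R ↔ ∀ X ∈ M, X b = 0) :
    IsVariety (X := Spec (CommRingCat.of R)) (Spec.map (CommRingCat.ofHom (algebraMap k R))) ∧
    HasResolution (X := Spec (CommRingCat.of R))
      (Spec.map (CommRingCat.ofHom (algebraMap k R))) := by
  classical
  let E := FractionRing A
  let L := FractionRing B
  have hfAB : Function.Injective (algebraMap A B) := injective_of_flat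
  have hBL : Function.Injective (algebraMap B L) := IsFractionRing.injective B L
  have hfAL : FaithfulSMul A L := by
    rw [faithfulSMul_iff_algebraMap_injective, IsScalarTower.algebraMap_eq A B L]
    exact hBL.comp hfAB
  let _ : Algebra E L := FractionRing.liftAlgebra A L
  have t1 : IsScalarTower A E L := FractionRing.isScalarTower_liftAlgebra A L
  have t0 : IsScalarTower k A L := IsScalarTower.of_algebraMap_eq fun c => by
    rw [IsScalarTower.algebraMap_apply A B L, ← IsScalarTower.algebraMap_apply k A B,
      ← IsScalarTower.algebraMap_apply k B L]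
  have t2 : IsScalarTower k E L := by
    refine IsScalarTower.of_algebraMap_eq fun c => ?_
    rw [IsScalarTower.algebraMap_apply k A E, ← IsScalarTower.algebraMap_apply A E L,
      ← IsScalarTower.algebraMap_apply k A L]
  have hpB : (p : B) = 0 := by rw [← map_natCast (algebraMap k B), hpk, map_zero]
  have hpowR : ∀ b : B, b ^ p ∈ R := by
    intro b
    rw [hR]
    intro X _
    rw [Derivation.leibniz_pow, nsmul_eq_mul, hpB, zero_mul]
  have hint : ∀ b : B, IsIntegral R b := by
    intro x
    refine ⟨Polynomial.X ^ p - Polynomial.C ⟨x ^ p, hpowR x⟩,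
      Polynomial.monic_X_pow_sub_C _ hp.ne_zero, ?_⟩
    rw [Polynomial.eval₂_sub, Polynomial.eval₂_pow, Polynomial.eval₂_X, Polynomial.eval₂_C]
    exact sub_self _
  have hftB : Algebra.FiniteType k B :=
    Algebra.FiniteType.trans (S := A) inferInstance inferInstance
  have hftR : Algebra.FiniteType k R := ft_of_integral R hint
  refine ⟨isVariety_spec, ?_⟩
  -- the derivations of the field
  let D' : M → Derivation k L L := fun X => ek k L (X : Derivation A B B)
  have hD : ∀ (X : M) (b : B), D' X (algebraMap B L b) =
      algebraMap B L ((X : Derivation A B B) b) := fun X b => ek_algebraMap _ _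
  have hDE : ∀ (X : M) (e : E), D' X (algebraMap E L e) = 0 := by
    intro X e
    obtain ⟨a, b, hb, rfl⟩ := IsFractionRing.div_surjective A e
    have hb0 : algebraMap A E b ≠ 0 := fun h =>
      nonZeroDivisors.ne_zero hb (IsFractionRing.injective A E (h.trans (map_zero _).symm))
    have hb1 : algebraMap E L (algebraMap A E b) ≠ 0 := fun h =>
      hb0 ((algebraMap E L).injective (h.trans (map_zero _).symm))
    have h1 : ∀ a : A, D' X (algebraMap E L (algebraMap A E a)) = 0 := by
      intro a
      rw [← IsScalarTower.algebraMap_apply A E L]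
      exact ek_A _ _
    have h2 : algebraMap E L (algebraMap A E b) *
        D' X (algebraMap E L (algebraMap A E a / algebraMap A E b)) = 0 := by
      have h3 := h1 a
      have h4 : algebraMap E L (algebraMap A E a) = algebraMap E L (algebraMap A E b) *
          algebraMap E L (algebraMap A E a / algebraMap A E b) := by
        rw [← map_mul, mul_div_cancel₀ _ hb0]
      rw [h4, Derivation.leibniz, h1, smul_zero, add_zero, smul_eq_mul] at h3
      exact h3
    exact (mul_eq_zero.1 h2).resolve_left hb1
  have hmn : ∀ (X : Fin r → M) (b : Fin r → B), mn (fun i => D' (X i))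
      (fun j => algebraMap B L (b j)) =
      algebraMap B L (Matrix.of fun i j => (X i : Derivation A B B) (b j)).det := by
    intro X b
    rw [mn, RingHom.map_det]
    congr 1
    ext i j
    exact hD _ _
  obtain ⟨T, hT, U, H, hA, hd⟩ := hX
  have hsm : ∀ t, Algebra.Smooth k (SU B L (U t) ⊓ cst D' : Subalgebra k L) := by
    intro t
    have := hA.sm t
    obtain ⟨d, hdI, hd0, hd1⟩ := hd t
    have hdL : algebraMap B L (algebraMap A B d) ≠ 0 := fun h =>
      hd0 (hfAB (hBL (by rw [h, map_zero, map_zero])))
    have hmem : ∀ z ∈ minors M r, algebraMap B L z / algebraMap B L (algebraMap A B d) ∈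
        SU B L (U t) := by
      intro z hz
      rw [hMI, Ideal.map] at hz
      induction hz using Submodule.span_induction with
      | mem z h =>
        obtain ⟨a, ha, rfl⟩ := h
        have h1 := hd1 a ha
        have h2 := e_mem (B := B) (L := L) h1
        rw [map_div₀, A_L (B := B), A_L (B := B)] at h2
        exact h2
      | zero => rw [map_zero, zero_div]; exact (SU B L (U t)).zero_mem
      | add x y _ _ hx hy => rw [map_add, add_div]; exact (SU B L (U t)).add_mem hx hy
      | smul c x _ hx =>
        rw [smul_eq_mul, map_mul, mul_div_assoc]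
        exact (SU B L (U t)).mul_mem (b_mem c) hx
    have h1 : ∀ (X : Fin r → M) (b : Fin r → B), mn (fun i => D' (X i))
        (fun j => algebraMap B L (b j)) / algebraMap B L (algebraMap A B d) ∈ SU B L (U t) := by
      intro X b
      rw [hmn]
      exact hmem _ (Ideal.subset_span ⟨fun i => (X i : Derivation A B B), b, fun i => (X i).2,
        rfl⟩)
    refine smooth_fol hBL (fun a => hA.aa t a) (fun (X : M) b => (X : Derivation A B B) b) D' hD
      hDE _ hdL h1 ?_ hp hpk (fun X b h => closed_of_minor hp hpk hM hr X b h)
    intro Q hQ
    by_contra hcon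
    push_neg at hcon
    have h2 : ∀ (z : B) (hz : z ∈ minors M r), (⟨_, hmem z hz⟩ : SU B L (U t)) ∈ Q := by
      intro z hz
      induction hz using Submodule.span_induction with
      | mem z h =>
        obtain ⟨X, b, hX, rfl⟩ := h
        have h3 := hcon (fun i => ⟨X i, hX i⟩) b
        convert h3 using 2
        rw [hmn]
      | zero =>
        convert Q.zero_mem using 1
        apply Subtype.ext
        change algebraMap B L 0 / _ = 0
        rw [map_zero, zero_div]
      | add x y hx hy hx' hy' =>
        convert Q.add_mem hx' hy' using 1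
        apply Subtype.ext
        change algebraMap B L (x + y) / _ = algebraMap B L x / _ + algebraMap B L y / _
        rw [map_add, add_div]
      | smul c x hx hx' =>
        convert Q.mul_mem_left (⟨algebraMap B L c, b_mem c⟩ : SU B L (U t)) hx' using 1
        apply Subtype.ext
        change algebraMap B L (c • x) / _ = algebraMap B L c * (algebraMap B L x / _)
        rw [smul_eq_mul, map_mul, mul_div_assoc]
    have h3 : algebraMap A B d ∈ minors M r := by
      rw [hMI]
      exact Ideal.mem_map_of_mem _ hdI
    apply hQ.ne_top
    rw [Ideal.eq_top_iff_one]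
    convert h2 _ h3 using 1
    apply Subtype.ext
    exact (div_self hdL).symm
  have hatl := atl_fam (B := B) (L := L) (cst D') (fun e X => hDE X e) R
    (by
      intro b
      rw [hR, mem_cst]
      constructor
      · intro h X
        rw [hD, h X X.2, map_zero]
      · intro h X hX
        have h1 := h ⟨X, hX⟩
        rw [hD] at h1
        exact hBL (h1.trans (map_zero _).symm)) hint U H hA hsm
  exact hasResolution_of_atl _ (hBL.comp Subtype.val_injective) hatl

end main

end Pool.Agent.Helper44x.SF
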