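import Pool.Agent.Helper44x.DM.Fam

/-!
Smooth families over an affine variety: base change to the charts of a modification.
-/

set_option autoImplicit false
set_option linter.unusedVariables false
set_option linter.unusedSectionVars false

open TensorProduct

namespace Pool.Agent.Helper44x.SF

section inj

variable {A B E L U : Type} [CommRing A] [IsDomain A] [CommRing B] [Algebra A B] [Module.Flat A B]
  [Field E] [Algebra A E] [IsFractionRing A E] [Field L] [Algebra A L] [Algebra B L]
  [IsScalarTower A B L] [Algebra E L] [IsScalarTower A E L] [CommRing U] [Algebra A U]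

/-- The map from the tensor product to the field. -/
noncomputable def mp (B : Type) [CommRing B] [Algebra A B] [Algebra B L] [IsScalarTower A B L]
    (f : U →ₐ[A] E) : U ⊗[A] B →ₐ[A] L :=
  Algebra.TensorProduct.lift ((IsScalarTower.toAlgHom A E L).comp f) (IsScalarTower.toAlgHom A B L)
    fun _ _ => Commute.all _ _

lemma mp_tmul (f : U →ₐ[A] E) (u : U) (b : B) :
    mp (L := L) B f (u ⊗ₜ b) = algebraMap E L (f u) * algebraMap B L b :=
  Algebra.TensorProduct.lift_tmul _ _ _ _ _

/-- Common denominators. -/
lemma exists_denom (z : E ⊗[A] B) : ∃ (a : A) (b : B), a ≠ 0 ∧ a • z = (1 : E) ⊗ₜ[A] b := by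
  induction z using TensorProduct.induction_on with
  | zero => exact ⟨1, 0, one_ne_zero, by rw [smul_zero, TensorProduct.tmul_zero]⟩
  | tmul e b =>
    obtain ⟨x, y, hy, rfl⟩ := IsFractionRing.div_surjective A e
    have hy0 : algebraMap A E y ≠ 0 := fun h =>
      nonZeroDivisors.ne_zero hy (IsFractionRing.injective A E (h.trans (map_zero _).symm))
    refine ⟨y, x • b, nonZeroDivisors.ne_zero hy, ?_⟩
    rw [TensorProduct.smul_tmul', Algebra.smul_def, mul_div_cancel₀ _ hy0,
      TensorProduct.tmul_smul, TensorProduct.smul_tmul', Algebra.smul_def, mul_one]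
  | add z w hz hw =>
    obtain ⟨a, b, ha, h1⟩ := hz
    obtain ⟨a', b', ha', h2⟩ := hw
    refine ⟨a * a', a' • b + a • b', mul_ne_zero ha ha', ?_⟩
    rw [smul_add, mul_comm a a', mul_smul, h1, mul_comm a' a, mul_smul, h2,
      TensorProduct.tmul_add, TensorProduct.tmul_smul, TensorProduct.tmul_smul]

/-- The map from the base change to the fraction field is injective. -/
theorem mp_injective_E (hB : Function.Injective (algebraMap B L)) :
    Function.Injective (mp (L := L) B (AlgHom.id A E)) := by
  rw [injective_iff_map_eq_zero]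
  intro z hz
  obtain ⟨a, b, ha, h1⟩ := exists_denom z
  have ha0 : algebraMap A E a ≠ 0 := fun h =>
    ha (IsFractionRing.injective A E (h.trans (map_zero _).symm))
  have h2 : mp (L := L) B (AlgHom.id A E) (a • z) = 0 := by rw [map_smul, hz, smul_zero]
  rw [h1, mp_tmul, map_one, map_one, one_mul] at h2
  have h3 : b = 0 := hB (h2.trans (map_zero _).symm)
  rw [h3, TensorProduct.tmul_zero] at h1
  have h4 : (algebraMap A E a)⁻¹ • ((algebraMap A E a) • z) = 0 := by
    rw [algebraMap_smul, h1, smul_zero]
  rwa [smul_smul, inv_mul_cancel₀ ha0, one_smul] at h4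

/-- The map from the tensor product to the field is injective. -/
theorem mp_injective (hB : Function.Injective (algebraMap B L)) (f : U →ₐ[A] E)
    (hf : Function.Injective f) : Function.Injective (mp (L := L) B f) := by
  have h1 : (mp (L := L) B f : U ⊗[A] B → L) =
      (mp (L := L) B (AlgHom.id A E)) ∘ (LinearMap.rTensor B f.toLinearMap) := by
    funext z
    rw [Function.comp_apply]
    induction z using TensorProduct.induction_on with
    | zero => rw [map_zero, map_zero, map_zero]
    | tmul u b =>
      rw [mp_tmul, LinearMap.rTensor_tmul, mp_tmul]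
      rfl
    | add x y hx hy => rw [map_add, map_add, map_add, hx, hy]
  rw [h1]
  exact (mp_injective_E hB).comp
    (Module.Flat.rTensor_preserves_injective_linearMap f.toLinearMap hf)

end inj

section chart

variable {k A B E L : Type} [Field k] [CommRing A] [IsDomain A] [Algebra k A] [CommRing B]
  [Algebra k B] [Algebra A B] [IsScalarTower k A B] [Field E] [Algebra k E] [Algebra A E]
  [IsScalarTower k A E] [IsFractionRing A E] [Field L] [Algebra k L] [Algebra A L] [Algebra B L]
  [IsScalarTower A B L] [Algebra E L] [IsScalarTower A E L] [IsScalarTower k E L]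
  [IsScalarTower k B L]

/-- The functions on the part of the base change over the chart with the functions `U`. -/
def SU (B L : Type) [CommRing B] [Algebra k B] [Field L] [Algebra k L] [Algebra B L]
    [IsScalarTower k B L] [Algebra E L] [IsScalarTower k E L] (U : Subalgebra k E) :
    Subalgebra k L :=
  U.map (IsScalarTower.toAlgHom k E L) ⊔ (IsScalarTower.toAlgHom k B L).range

variable {U : Subalgebra k E}

lemma e_mem {u : E} (hu : u ∈ U) : algebraMap E L u ∈ SU B L U :=
  (le_sup_left : _ ≤ SU B L U) ⟨u, hu, rfl⟩

lemma b_mem (b : B) : algebraMap B L b ∈ SU B L U :=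
  (le_sup_right : _ ≤ SU B L U) ⟨b, rfl⟩

/-- Induction for elements of the chart. -/
theorem SU_ind {P : L → Prop} (h0 : P 0)
    (hm : ∀ u ∈ U, ∀ b : B, P (algebraMap E L u * algebraMap B L b))
    (ha : ∀ x y, P x → P y → P (x + y)) {x : L} (hx : x ∈ SU B L U) : P x := by
  let M : Submonoid L :=
    { carrier := {x | ∃ u ∈ U, ∃ b : B, x = algebraMap E L u * algebraMap B L b}
      mul_mem' := by
        rintro _ _ ⟨u, hu, b, rfl⟩ ⟨u', hu', b', rfl⟩
        refine ⟨u * u', U.mul_mem hu hu', b * b', ?_⟩
        rw [map_mul, map_mul]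
        ring
      one_mem' := ⟨1, U.one_mem, 1, by rw [map_one, map_one, one_mul]⟩ }
  have h1 : SU B L U = Algebra.adjoin k (M : Set L) := by
    apply le_antisymm
    · refine sup_le ?_ ?_
      · rintro _ ⟨u, hu, rfl⟩
        exact Algebra.subset_adjoin ⟨u, hu, 1, by rw [map_one, mul_one]; rfl⟩
      · rintro _ ⟨b, rfl⟩
        exact Algebra.subset_adjoin ⟨1, U.one_mem, b, by rw [map_one, one_mul]; rfl⟩
    · rw [Algebra.adjoin_le_iff]
      rintro _ ⟨u, hu, b, rfl⟩
      exact (SU B L U).mul_mem (e_mem hu) (b_mem b)
  have h2 : x ∈ Submodule.span k (M : Set L) := by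
    have h3 := Algebra.adjoin_eq_span k (M : Set L)
    rw [Submonoid.closure_eq] at h3
    rw [← h3, ← h1]
    exact hx
  induction h2 using Submodule.span_induction with
  | mem x h =>
    obtain ⟨u, hu, b, rfl⟩ := h
    exact hm u hu b
  | zero => exact h0
  | add x y _ _ hx' hy' =>
    rename_i hxs hys
    have hin : ∀ z ∈ Submodule.span k (M : Set L), z ∈ SU B L U := by
      intro z hz
      have h3 := Algebra.adjoin_eq_span k (M : Set L)
      rw [Submonoid.closure_eq] at h3
      rw [h1]
      exact (h3.symm ▸ hz : z ∈ Subalgebra.toSubmodule (Algebra.adjoin k (M : Set L)))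
    exact ha _ _ (hx' (hin _ hxs)) (hy' (hin _ hys))
  | smul c x hxs hx' =>
    have hin : ∀ z ∈ Submodule.span k (M : Set L), z ∈ SU B L U := by
      intro z hz
      have h3 := Algebra.adjoin_eq_span k (M : Set L)
      rw [Submonoid.closure_eq] at h3
      rw [h1]
      exact (h3.symm ▸ hz : z ∈ Subalgebra.toSubmodule (Algebra.adjoin k (M : Set L)))
    clear hx'
    -- the predicate is stable under scalars on sums of products
    have key : ∀ z ∈ Submodule.span k (M : Set L), ∀ c : k, P (c • z) := by
      intro z hz
      induction hz using Submodule.span_induction with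
      | mem z h =>
        intro c
        obtain ⟨u, hu, b, rfl⟩ := h
        have h4 : c • (algebraMap E L u * algebraMap B L b) =
            algebraMap E L (c • u) * algebraMap B L b := by
          rw [Algebra.smul_def, Algebra.smul_def, map_mul, ← IsScalarTower.algebraMap_apply,
            mul_assoc]
        rw [h4]
        exact hm _ (U.smul_mem hu c) b
      | zero => intro c; rw [smul_zero]; exact h0
      | add z w _ _ hz hw => intro c; rw [smul_add]; exact ha _ _ (hz c) (hw c)
      | smul a z _ hz => intro c; rw [smul_smul]; exact hz _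
    exact key x hxs c

/-- The chart is smooth. -/
theorem smooth_SU [Algebra.Smooth A B] (hB : Function.Injective (algebraMap B L))
    (hU : ∀ a : A, algebraMap A E a ∈ U) [Algebra.Smooth k U] : Algebra.Smooth k (SU B L U) := by
  let _ : Algebra A U := ((algebraMap A E).codRestrict U hU).toAlgebra
  have t1 : IsScalarTower k A U := IsScalarTower.of_algebraMap_eq fun c => Subtype.ext (by
    change algebraMap k E c = algebraMap A E (algebraMap k A c)
    rw [← IsScalarTower.algebraMap_apply])
  let f : U →ₐ[A] E := { U.val.toRingHom with commutes' := fun a => rfl }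
  have hf : Function.Injective f := Subtype.val_injective
  have h1 : Algebra.Smooth U (U ⊗[A] B) := inferInstance
  have h2 : Algebra.Smooth k (U ⊗[A] B) := Algebra.Smooth.comp k U (U ⊗[A] B)
  have t2 : IsScalarTower k A L := IsScalarTower.of_algebraMap_eq fun c => by
    rw [IsScalarTower.algebraMap_apply A E L, ← IsScalarTower.algebraMap_apply k A E,
      ← IsScalarTower.algebraMap_apply k E L]
  let g : U ⊗[A] B →ₐ[k] L := (mp (L := L) B f).restrictScalars k
  have hg : Function.Injective g := mp_injective hB f hf
  have h3 : g.range = SU B L U := by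
    apply le_antisymm
    · rintro _ ⟨z, rfl⟩
      change mp (L := L) B f z ∈ SU B L U
      induction z using TensorProduct.induction_on with
      | zero => rw [map_zero]; exact (SU B L U).zero_mem
      | tmul u b =>
        rw [mp_tmul]
        exact (SU B L U).mul_mem (e_mem u.2) (b_mem b)
      | add x y hx hy => rw [map_add]; exact (SU B L U).add_mem hx hy
    · refine sup_le ?_ ?_
      · rintro _ ⟨u, hu, rfl⟩
        refine ⟨(⟨u, hu⟩ : U) ⊗ₜ 1, ?_⟩
        change mp (L := L) B f _ = _
        rw [mp_tmul, map_one, mul_one]
        rfl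
      · rintro _ ⟨b, rfl⟩
        refine ⟨1 ⊗ₜ b, ?_⟩
        change mp (L := L) B f _ = _
        rw [mp_tmul, map_one, map_one, one_mul]
        rfl
  rw [← h3]
  exact Algebra.Smooth.of_equiv (AlgEquiv.ofInjective g hg)

end chart

end Pool.Agent.Helper44x.SF
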